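import Mathlib

set_option autoImplicit false

namespace Pool.Agent.H182Z.Opp

/-- no divisor `d` with `2 ≤ d < 200`, `d < x`. -/
def np (x : ℕ) : Bool := (List.range 200).all (fun d => decide (d < 2) || decide (x ≤ d) || x % d != 0)

theorem np_of_prime {x : ℕ} (h : x.Prime) : np x = true := by
  unfold np
  rw [List.all_eq_true]
  intro d _
  by_cases h1 : d < 2
  · simp [h1]
  by_cases h2 : x ≤ d
  · simp [h2]
  have : ¬ d ∣ x := by
    intro hd
    rcases (Nat.dvd_prime h).1 hd with h3 | h3 <;> omega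
  have h4 : x % d ≠ 0 := fun h5 => this (Nat.dvd_of_mod_eq_zero h5)
  simp [h4]

def cnt (a l : ℕ) : ℕ := ((List.range' a l).filter np).length

theorem card_le (a b : ℕ) : ((Finset.Icc a b).filter Nat.Prime).card ≤ cnt a (b + 1 - a) := by
  unfold cnt
  calc ((Finset.Icc a b).filter Nat.Prime).card
      ≤ (((List.range' a (b + 1 - a)).filter np).toFinset).card := by
        apply Finset.card_le_card
        intro x hx
        simp only [Finset.mem_filter, Finset.mem_Icc] at hx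
        simp only [List.mem_toFinset, List.mem_filter, List.mem_range'_1]
        exact ⟨⟨hx.1.1, by omega⟩, np_of_prime hx.2⟩
    _ ≤ _ := List.toFinset_card_le _

theorem key : ∀ kN ∈ ([(2, 16), (3, 36), (4, 46), (5, 76), (7, 79), (8, 85), (9, 118), (10, 136),
        (12, 155), (13, 188)] : List (ℕ × ℕ)),
      cnt ((kN.2 + 1) ^ 2 - (kN.2 + 1)) ((kN.2 + 1) ^ 2 + 1 - ((kN.2 + 1) ^ 2 - (kN.2 + 1))) < kN.1 ∨
      cnt ((kN.2 + 1) ^ 2) ((kN.2 + 1) ^ 2 + (kN.2 + 1) + 1 - (kN.2 + 1) ^ 2) < kN.1 := by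
  decide +kernel

theorem main :
    ∀ kN ∈ ([(2, 16), (3, 36), (4, 46), (5, 76), (7, 79), (8, 85), (9, 118), (10, 136),
        (12, 155), (13, 188)] : List (ℕ × ℕ)),
      ¬ (∀ n : ℕ, kN.2 < n →
          kN.1 ≤ ((Finset.Icc (n ^ 2 - n) (n ^ 2)).filter Nat.Prime).card ∧
          kN.1 ≤ ((Finset.Icc (n ^ 2) (n ^ 2 + n)).filter Nat.Prime).card) := by
  intro kN h H
  obtain ⟨h1, h2⟩ := H (kN.2 + 1) (Nat.lt_succ_self _)
  rcases key kN h with h3 | h3
  · exact absurd (h1.trans (card_le _ _)) (not_le.2 h3)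
  · exact absurd (h2.trans (card_le _ _)) (not_le.2 h3)

end Pool.Agent.H182Z.Opp
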